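import Pool.Agent.N520.AN.Stm2

/-!
Project AN2, leaf LOW: the elements of the group expand some plate.
-/

set_option autoImplicit false

open Set Filter Topology

namespace Pool.Agent.N749.AN2

open Pool.Agent.N520.AN

theorem t_low (_h1 : Pool.Agent.N520.AN.S2_SUB) (h2 : Pool.Agent.N520.AN.S2_TWO)
    (h3 : Pool.Agent.N520.AN.S2_BEL) (h4 : Pool.Agent.N520.AN.S2_IM)
    (h5 : Pool.Agent.N520.AN.S2_PAR) : Pool.Agent.N520.AN.S2_LOW := by
  intro E _ _ _ q Λ hA hinv hne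
  by_contra hcon
  push Not at hcon
  have hseq : ∀ i : ℕ, ∃ g ∈ Λ, ∀ k ∈ Plt q Λ,
      ∃ f, ‖k f‖ < (1 / ((i : ℝ) + 1)) * ‖g.symm (k f)‖ := fun i => by
    obtain ⟨g, hg, hk⟩ := hcon (1 / ((i : ℝ) + 1)) (by positivity)
    exact ⟨g, hg, hk⟩
  choose g hg hgk using hseq
  obtain ⟨k0, hk0⟩ := hne
  -- the inverses diverge
  have hDiv : Div (inv g) := by
    choose f hf using fun i => hgk i k0 hk0
    refine ⟨fun i => (‖k0 (f i)‖)⁻¹ • k0 (f i), fun i => ?_, ?_⟩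
    · rw [norm_smul, norm_inv, norm_norm]
      by_cases h0 : ‖k0 (f i)‖ = 0
      · simp [h0]
      · rw [inv_mul_cancel₀ h0]
    · have hlow : ∀ i : ℕ, (i : ℝ) ≤ ‖(g i).symm ((‖k0 (f i)‖)⁻¹ • k0 (f i))‖ := by
        intro i
        have h1 := hf i
        have hne0 : 0 < ‖k0 (f i)‖ := by
          rcases (norm_nonneg (k0 (f i))).lt_or_eq with hlt | heq
          · exact hlt
          · exfalso
            have hz : k0 (f i) = 0 := norm_eq_zero.mp heq.symm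
            rw [hz] at h1
            simp at h1
        rw [map_smul, norm_smul, norm_inv, norm_norm]
        rw [inv_mul_eq_div, le_div_iff₀ hne0]
        have hi : (0 : ℝ) < (i : ℝ) + 1 := by positivity
        rw [one_div, inv_mul_eq_div, lt_div_iff₀ hi] at h1
        nlinarith
      exact tendsto_atTop_mono hlow tendsto_natCast_atTop_atTop
  obtain ⟨φ, hφ, hF1, -⟩ := h2 E q Λ hA (inv g) (inv_mem' hg) hDiv
  have hGΛ : ∀ j, (g ∘ φ) j ∈ Λ := fun j => hg (φ j)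
  have hF2 : Fl q (inv (g ∘ φ)) := hF1
  obtain ⟨k', hk'1, hk'2⟩ := h5 E q (big (inv (g ∘ φ))) hF2.2
  have hk' : k' ∈ Plt q Λ := ⟨hk'1, inv (g ∘ φ), inv_mem' hGΛ, hF2, hk'2⟩
  obtain ⟨c, hc, x, hx, hcx⟩ := hinv k' hk'
  obtain ⟨l, hl, hlr⟩ := h4 E q Λ hA c hc k' hk'
  obtain ⟨-, h, hh, hFh, hlb⟩ := id hl
  have hne : big h ≠ big (inv (g ∘ φ)) := by
    intro heq
    apply hcx
    rw [hk'2, ← heq, ← hlb, hlr, LinearEquiv.symm_apply_apply]
    exact hx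
  obtain ⟨δ, hδ, hev⟩ := h3 E q Λ hA (g ∘ φ) h hGΛ hh hF2 hFh hne
  have hev2 : ∀ᶠ j : ℕ in atTop, 1 / ((j : ℝ) + 1) < δ :=
    tendsto_one_div_add_atTop_nhds_zero_nat.eventually (gt_mem_nhds hδ)
  obtain ⟨j, hj1, hj2⟩ := (hev.and hev2).exists
  obtain ⟨kj, hkj, hkjr⟩ := h4 E q Λ hA ((g ∘ φ) j) (hGΛ j) l hl
  obtain ⟨f, hf⟩ := hgk (φ j) kj hkj
  have hmem : (g (φ j)).symm (kj f) ∈ big h := (hlb _).1 ((hkjr (kj f)).1 ⟨f, rfl⟩)
  have h6 := hj1 _ hmem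
  have h7 : (g ∘ φ) j ((g (φ j)).symm (kj f)) = kj f := (g (φ j)).apply_symm_apply (kj f)
  rw [h7] at h6
  have h8 : 1 / ((φ j : ℝ) + 1) ≤ 1 / ((j : ℝ) + 1) := by
    apply one_div_le_one_div_of_le (by positivity)
    have : (j : ℝ) ≤ φ j := by exact_mod_cast hφ.id_le j
    linarith
  have h9 : 1 / ((φ j : ℝ) + 1) * ‖(g (φ j)).symm (kj f)‖ ≤ δ * ‖(g (φ j)).symm (kj f)‖ :=
    mul_le_mul_of_nonneg_right (h8.trans hj2.le) (norm_nonneg _)
  linarith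

end Pool.Agent.N749.AN2
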